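import Mathlib
import Pool.Agent.MP9a04dc.Duality
import Pool.Agent.Dyadic85.Greedy

set_option autoImplicit false
set_option linter.unusedSectionVars false
set_option linter.unusedVariables false

namespace Pool.Agent.Results.MP_743355_co.SmallIntersections

open Finset Matrix

variable {m n : ℕ}

/-- `x` lies in the set covering polyhedron `P(A) = {x ≥ 0, A x ≥ 1}`. -/
def InP (A : Matrix (Fin m) (Fin n) ℝ) (x : Fin n → ℝ) : Prop :=
  (∀ j, 0 ≤ x j) ∧ ∀ i, 1 ≤ ∑ j, A i j * x j

/-- `x` minimises `w x` over `P(A)`. -/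
def IsPrimalOpt (A : Matrix (Fin m) (Fin n) ℝ) (w : Fin n → ℝ) (x : Fin n → ℝ) : Prop :=
  InP A x ∧ ∀ x', InP A x' → ∑ j, w j * x j ≤ ∑ j, w j * x' j

/-- `P(A)` is integral: whenever a linear function has a minimiser over `P(A)`, it has an
integral one. -/
def IntegralP (A : Matrix (Fin m) (Fin n) ℝ) : Prop :=
  ∀ w x : Fin n → ℝ, IsPrimalOpt A w x → ∃ z : Fin n → ℤ, IsPrimalOpt A w (fun j => (z j : ℝ))

/-- `y` is an optimal solution of the dual program `max 1 y : y A ≤ w, y ≥ 0`. -/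
def IsDualOpt (A : Matrix (Fin m) (Fin n) ℝ) (w : Fin n → ℝ) (y : Fin m → ℝ) : Prop :=
  ((∀ i, 0 ≤ y i) ∧ ∀ j, ∑ i, A i j * y i ≤ w j) ∧
    ∀ y' : Fin m → ℝ, (∀ i, 0 ≤ y' i) → (∀ j, ∑ i, A i j * y' i ≤ w j) → ∑ i, y' i ≤ ∑ i, y i

/-- `B` is a cover: a set of columns that meets every row. -/
def IsCover (A : Matrix (Fin m) (Fin n) ℝ) (B : Finset (Fin n)) : Prop :=
  ∀ i, ∃ j ∈ B, A i j = 1

/-- `B` is a cover that is minimal under inclusion. -/
def IsMinimalCover (A : Matrix (Fin m) (Fin n) ℝ) (B : Finset (Fin n)) : Prop :=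
  IsCover A B ∧ ∀ j ∈ B, ¬ IsCover A (B.erase j)

/-- The number of elements of `B` in (the support of) row `i`. -/
noncomputable def meet (A : Matrix (Fin m) (Fin n) ℝ) (i : Fin m) (B : Finset (Fin n)) : ℕ :=
  {j ∈ B | A i j = 1}.card

/-- Row `i` is tight for `w`: it meets every minimal cover of minimum `w`-weight exactly once. -/
def Tight (A : Matrix (Fin m) (Fin n) ℝ) (w : Fin n → ℝ) (i : Fin m) : Prop :=
  ∀ B, IsMinimalCover A B → (∀ B', IsCover A B' → ∑ j ∈ B, w j ≤ ∑ j ∈ B', w j) → meet A i B = 1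

lemma exists_minimal (A : Matrix (Fin m) (Fin n) ℝ) :
    ∀ (k : ℕ) (B : Finset (Fin n)), B.card ≤ k → IsCover A B → ∃ B' ⊆ B, IsMinimalCover A B' := by
  intro k
  induction k with
  | zero =>
    intro B hB hc
    have : B = ∅ := card_eq_zero.1 (by omega)
    subst this
    exact ⟨∅, subset_rfl, hc, by simp⟩
  | succ k ih =>
    intro B hB hc
    by_cases h : ∀ j ∈ B, ¬ IsCover A (B.erase j)
    · exact ⟨B, subset_rfl, hc, h⟩
    · push Not at h
      obtain ⟨j, hj, hj2⟩ := h
      obtain ⟨B', hB', h'⟩ := ih (B.erase j) (by rw [card_erase_of_mem hj]; omega) hj2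
      exact ⟨B', hB'.trans (erase_subset _ _), h'⟩

lemma rowsum {A : Matrix (Fin m) (Fin n) ℝ} (hA : ∀ i j, A i j = 0 ∨ A i j = 1) (i : Fin m)
    (x : Fin n → ℝ) : ∑ j, A i j * x j = ∑ j ∈ {j | A i j = 1}, x j := by
  rw [sum_filter]
  refine sum_congr rfl fun j _ => ?_
  rcases hA i j with h | h <;> simp [h]

/-- attainment -/
lemma exists_opt {A : Matrix (Fin m) (Fin n) ℝ} (hA : ∀ i j, A i j = 0 ∨ A i j = 1)
    (hrow : ∀ i, ∃ j, A i j = 1) (w : Fin n → ℝ) (hw : ∀ j, 0 ≤ w j) :
    ∃ x, IsPrimalOpt A w x := by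
  set K : Set (Fin n → ℝ) := Set.Icc 0 1 ∩ ⋂ i, {x | 1 ≤ ∑ j, A i j * x j} with hK
  have hKc : IsCompact K := by
    refine isCompact_Icc.inter_right (isClosed_iInter fun i => ?_)
    exact isClosed_le continuous_const (by fun_prop)
  have hone : (1 : Fin n → ℝ) ∈ K := by
    refine ⟨⟨fun _ => by simp, le_rfl⟩, Set.mem_iInter.2 fun i => ?_⟩
    obtain ⟨j, hj⟩ := hrow i
    show 1 ≤ ∑ j, A i j * (1 : Fin n → ℝ) j
    rw [rowsum hA]
    have := single_le_sum (f := fun j => (1 : Fin n → ℝ) j) (s := {j | A i j = 1})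
      (fun j _ => by simp) (by simpa using hj : j ∈ ({j | A i j = 1} : Finset (Fin n)))
    simpa using this
  obtain ⟨x, hx, hmin⟩ := hKc.exists_isMinOn (f := fun x : Fin n → ℝ => ∑ j, w j * x j) ⟨1, hone⟩
    (by fun_prop)
  have hxP : InP A x := ⟨fun j => hx.1.1 j, fun i => Set.mem_iInter.1 hx.2 i⟩
  refine ⟨x, hxP, fun x' hx' => ?_⟩
  have h1 : (fun j => min (x' j) 1) ∈ K := by
    refine ⟨⟨fun j => le_min (hx'.1 j) zero_le_one, fun j => min_le_right _ _⟩,
      Set.mem_iInter.2 fun i => ?_⟩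
    show 1 ≤ ∑ j, A i j * min (x' j) 1
    rw [rowsum hA]
    by_cases h : ∃ j, A i j = 1 ∧ 1 ≤ x' j
    · obtain ⟨j, hj, hj1⟩ := h
      have := single_le_sum (f := fun j => min (x' j) 1) (s := {j | A i j = 1})
        (fun j _ => le_min (hx'.1 j) zero_le_one)
        (by simpa using hj : j ∈ ({j | A i j = 1} : Finset (Fin n)))
      simpa [min_eq_right hj1] using this
    · push Not at h
      have h2 := hx'.2 i
      rw [rowsum hA] at h2
      refine h2.trans (le_of_eq (sum_congr rfl fun j hj => ?_))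
      rw [min_eq_left (h j (by simpa using hj)).le]
  have h2 : ∑ j, w j * x j ≤ ∑ j, w j * min (x' j) 1 := hmin h1
  refine h2.trans (sum_le_sum fun j _ => mul_le_mul_of_nonneg_left (min_le_left _ _) (hw j))

/-- the minimum over `P(A)` is at least the minimum weight of a minimal cover -/
lemma le_primal {A : Matrix (Fin m) (Fin n) ℝ} (hA : ∀ i j, A i j = 0 ∨ A i j = 1)
    (hint : IntegralP A) (hrow : ∀ i, ∃ j, A i j = 1) (w : Fin n → ℝ) (hw : ∀ j, 0 ≤ w j) (t : ℝ)
    (ht : ∀ B, IsMinimalCover A B → t ≤ ∑ j ∈ B, w j) (x : Fin n → ℝ) (hx : InP A x) :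
    t ≤ ∑ j, w j * x j := by
  obtain ⟨x0, hx0⟩ := exists_opt hA hrow w hw
  obtain ⟨z, hz⟩ := hint w x0 hx0
  have hz0 : ∀ j, 0 ≤ z j := fun j => by
    have h : (0 : ℝ) ≤ (z j : ℝ) := hz.1.1 j
    exact_mod_cast h
  have hcov : IsCover A {j | 1 ≤ z j} := by
    intro i
    by_contra hcon
    push Not at hcon
    have h1 := hz.1.2 i
    rw [rowsum hA] at h1
    have h2 : ∑ j ∈ {j | A i j = 1}, ((z j : ℤ) : ℝ) = 0 := by
      refine sum_eq_zero fun j hj => ?_
      have h3 : ¬ (1 ≤ z j) := fun h => hcon j (by simpa using h) (by simpa using hj)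
      have : z j = 0 := by have := hz0 j; omega
      simp [this]
    rw [h2] at h1
    linarith
  obtain ⟨B, hB, hBm⟩ := exists_minimal A _ _ le_rfl hcov
  calc t ≤ ∑ j ∈ B, w j := ht B hBm
    _ ≤ ∑ j ∈ {j | 1 ≤ z j}, w j := sum_le_sum_of_subset_of_nonneg hB fun j _ _ => hw j
    _ ≤ ∑ j ∈ {j | 1 ≤ z j}, w j * (z j : ℝ) := by
        refine sum_le_sum fun j hj => ?_
        have : (1 : ℝ) ≤ (z j : ℝ) := by
          have := (mem_filter.1 hj).2
          exact_mod_cast this
        nlinarith [hw j]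
    _ ≤ ∑ j, w j * (z j : ℝ) := by
        refine sum_le_sum_of_subset_of_nonneg (subset_univ _) fun j _ _ => ?_
        exact mul_nonneg (hw j) (by exact_mod_cast hz0 j)
    _ ≤ _ := hz.2 x hx

/-- LP duality for ideal systems -/
lemma packing {A : Matrix (Fin m) (Fin n) ℝ} (hA : ∀ i j, A i j = 0 ∨ A i j = 1)
    (hint : IntegralP A) (hrow : ∀ i, ∃ j, A i j = 1) (w : Fin n → ℝ) (hw : ∀ j, 0 ≤ w j) (t : ℝ)
    (ht : ∀ B, IsMinimalCover A B → t ≤ ∑ j ∈ B, w j) :
    ∃ y : Fin m → ℝ, (∀ i, 0 ≤ y i) ∧ (∀ j, ∑ i, A i j * y i ≤ w j) ∧ t ≤ ∑ i, y i := by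
  set M : ℝ := 1 + ∑ j, w j with hM
  have hM0 : 0 ≤ M := by
    have : 0 ≤ ∑ j, w j := sum_nonneg fun j _ => hw j
    linarith
  have hconv : Convex ℝ (Set.Icc (0 : Fin m → ℝ) (fun _ => M)) := convex_Icc _ _
  obtain ⟨y, hy, hg, hv⟩ := Pool.Agent.MP9a04dc.lp_duality (J := Fin m) (I := Fin n)
    (Set.Icc 0 (fun _ => M)) isCompact_Icc hconv (fun j i => A i j) w (fun _ => 1) t 0
    ⟨le_rfl, fun _ => hM0⟩ (fun j => by simpa using hw j) (by
      intro z hz
      have hval : ∀ y : Fin m → ℝ, (fun _ => (1 : ℝ)) ⬝ᵥ y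
          - ∑ j, z j * ((fun i => A i j) ⬝ᵥ y - w j)
          = ∑ i, y i * (1 - ∑ j, A i j * z j) + ∑ j, w j * z j := by
        intro y
        simp only [dotProduct, one_mul]
        have h1 : ∑ j, z j * (∑ i, A i j * y i - w j)
            = ∑ i, y i * ∑ j, A i j * z j - ∑ j, w j * z j := by
          simp_rw [mul_sub, mul_sum]
          rw [sum_sub_distrib, sum_comm]
          congr 1
          · exact sum_congr rfl fun i _ => sum_congr rfl fun j _ => by ring
          · exact sum_congr rfl fun j _ => by ring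
        rw [h1]
        simp_rw [mul_sub, mul_one]
        rw [sum_sub_distrib]
        ring
      by_cases h : ∀ i, 1 ≤ ∑ j, A i j * z j
      · refine ⟨0, ⟨le_rfl, fun _ => hM0⟩, ?_⟩
        rw [hval]
        have := le_primal hA hint hrow w hw t ht z ⟨hz, h⟩
        simpa using this
      · push Not at h
        obtain ⟨i1, hi1⟩ := h
        obtain ⟨i0, -, hi0⟩ := exists_min_image (univ : Finset (Fin m))
          (fun i => ∑ j, A i j * z j) ⟨i1, mem_univ _⟩
        have hlt : ∑ j, A i0 j * z j < 1 := (hi0 i1 (mem_univ _)).trans_lt hi1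
        set δ : ℝ := 1 - ∑ j, A i0 j * z j with hδ
        have hδ0 : 0 < δ := sub_pos.2 hlt
        have hfeas : InP A (fun j => z j + δ) := by
          refine ⟨fun j => add_nonneg (hz j) hδ0.le, fun i => ?_⟩
          have h1 := hi0 i (mem_univ _)
          have h2 : ∑ j, A i j * (z j + δ) = ∑ j, A i j * z j + (∑ j, A i j * 1) * δ := by
            rw [sum_mul, ← sum_add_distrib]
            exact sum_congr rfl fun j _ => by ring
          have h3 : 1 ≤ ∑ j, A i j * (1 : ℝ) := by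
            obtain ⟨j, hj⟩ := hrow i
            rw [rowsum hA]
            have := single_le_sum (f := fun _ : Fin n => (1 : ℝ)) (s := {j | A i j = 1})
              (fun j _ => zero_le_one) (by simpa using hj : j ∈ ({j | A i j = 1} : Finset (Fin n)))
            simpa using this
          rw [h2]
          nlinarith
        have h4 := le_primal hA hint hrow w hw t ht _ hfeas
        have h5 : ∑ j, w j * (z j + δ) = ∑ j, w j * z j + (∑ j, w j) * δ := by
          rw [sum_mul, ← sum_add_distrib]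
          exact sum_congr rfl fun j _ => by ring
        rw [h5] at h4
        refine ⟨fun i => if ∑ j, A i j * z j < 1 then M else 0, ⟨fun i => ?_, fun i => ?_⟩, ?_⟩
        · show (0 : ℝ) ≤ if ∑ j, A i j * z j < 1 then M else 0
          split_ifs <;> simp [hM0]
        · show (if ∑ j, A i j * z j < 1 then M else 0) ≤ M
          split_ifs <;> simp [hM0]
        · rw [hval]
          have h6 : M * δ ≤ ∑ i, (if ∑ j, A i j * z j < 1 then M else 0) * (1 - ∑ j, A i j * z j) := by
            have := single_le_sum (f := fun i => (if ∑ j, A i j * z j < 1 then M else 0)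
              * (1 - ∑ j, A i j * z j)) (s := univ) (fun i _ => by
                show 0 ≤ (if ∑ j, A i j * z j < 1 then M else 0) * (1 - ∑ j, A i j * z j)
                split_ifs with h
                · exact mul_nonneg hM0 (by linarith)
                · simp) (mem_univ i0)
            simpa [hlt, hδ] using this
          nlinarith)
  refine ⟨y, fun i => hy.1 i, fun j => ?_, ?_⟩
  · have := hg j
    simpa [dotProduct] using this
  · simpa [dotProduct] using hv

/-- **Theorem.** Let `A` be a 0,1 matrix with `P(A)` integral, `w` integral with a finite minimum,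
and let `N` be a multiplicatively closed set of natural numbers that contains
`meet A i B - 1` for all rows `i` tight for `w` and all minimal covers `B` that row `i` meets at
least twice. Then the dual has an optimal solution all of whose entries are fractions with
denominator in `N`. -/
theorem result (m n : ℕ) (A : Matrix (Fin m) (Fin n) ℝ) (hA : ∀ i j, A i j = 0 ∨ A i j = 1)
    (hint : IntegralP A) (w : Fin n → ℤ) (hw : ∃ x, IsPrimalOpt A (fun j => (w j : ℝ)) x)
    (N : Submonoid ℕ)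
    (hN : ∀ i, Tight A (fun j => (w j : ℝ)) i → ∀ B, IsMinimalCover A B →
      2 ≤ meet A i B → meet A i B - 1 ∈ N) :
    ∃ y, IsDualOpt A (fun j => (w j : ℝ)) y ∧
      ∀ i, ∃ (k : ℤ) (d : ℕ), d ∈ N ∧ 0 < d ∧ y i = (k : ℝ) / (d : ℝ) := by
  classical
  obtain ⟨x0, hx0⟩ := hw
  -- rows are nonzero
  have hrow : ∀ i, ∃ j, A i j = 1 := by
    intro i
    by_contra hcon
    push Not at hcon
    have h1 := hx0.1.2 i
    rw [rowsum hA, sum_eq_zero] at h1
    · linarith
    · intro j hj
      exact absurd (by simpa using hj) (hcon j)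
  -- weights are nonnegative
  have hw0 : ∀ j, (0 : ℝ) ≤ (w j : ℝ) := by
    intro j
    by_contra hcon
    push Not at hcon
    have hfeas : InP A (fun k => x0 k + if k = j then 1 else 0) := by
      refine ⟨fun k => ?_, fun i => ?_⟩
      · have := hx0.1.1 k
        show 0 ≤ x0 k + if k = j then 1 else 0
        split_ifs <;> linarith
      · refine (hx0.1.2 i).trans (sum_le_sum fun k _ => ?_)
        refine mul_le_mul_of_nonneg_left ?_ (by rcases hA i k with h | h <;> simp [h])
        show x0 k ≤ x0 k + if k = j then 1 else 0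
        split_ifs <;> linarith
    have h1 := hx0.2 _ hfeas
    have h2 : ∑ k, (w k : ℝ) * (x0 k + if k = j then 1 else 0) = ∑ k, (w k : ℝ) * x0 k + (w j : ℝ) := by
      simp_rw [mul_add]
      rw [sum_add_distrib]
      simp
    rw [h2] at h1
    linarith
  set Bs : Finset (Finset (Fin n)) := univ.filter fun B => IsMinimalCover A B with hBs
  set S : Fin m → Finset (Fin n) := fun i => univ.filter fun j => A i j = 1 with hS
  have hmeet : ∀ i B, (B ∩ S i).card = meet A i B := by
    intro i B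
    unfold meet
    congr 1
    ext j
    simp [hS]
  have hcovuniv : IsCover A univ := fun i => by
    obtain ⟨j, hj⟩ := hrow i
    exact ⟨j, mem_univ j, hj⟩
  have hBne : Bs.Nonempty := by
    obtain ⟨B, -, hB⟩ := exists_minimal A _ _ le_rfl hcovuniv
    exact ⟨B, mem_filter.2 ⟨mem_univ _, hB⟩⟩
  obtain ⟨B0, hB0, hB0min⟩ := exists_min_image Bs (fun B => ∑ j ∈ B, (w j : ℝ)) hBne
  set t : ℝ := ∑ j ∈ B0, (w j : ℝ) with ht
  have hSB : ∀ B ∈ Bs, ∀ i, (B ∩ S i).Nonempty := by
    intro B hB i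
    obtain ⟨j, hj, hj1⟩ := (mem_filter.1 hB).2.1 i
    exact ⟨j, mem_inter.2 ⟨hj, by simpa [hS] using hj1⟩⟩
  have hsumeq : ∀ (y : Fin m → ℝ) (j : Fin n), ∑ i, (if j ∈ S i then y i else 0) = ∑ i, A i j * y i := by
    intro y j
    refine sum_congr rfl fun i _ => ?_
    rcases hA i j with h | h <;> simp [hS, h]
  have hminall : ∀ B', IsCover A B' → t ≤ ∑ j ∈ B', (w j : ℝ) := by
    intro B' hB'
    obtain ⟨B, hB, hBm⟩ := exists_minimal A _ _ le_rfl hB'
    exact (hB0min B (mem_filter.2 ⟨mem_univ _, hBm⟩)).trans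
      (sum_le_sum_of_subset_of_nonneg hB fun j _ _ => hw0 j)
  obtain ⟨y, hy0, hyN, hyw, hyt⟩ := Pool.Agent.Dyadic85.greedy S
    (fun i => by
      obtain ⟨j, hj⟩ := hrow i
      exact ⟨j, by simpa [hS] using hj⟩) Bs hSB N
    (by
      intro w' t' hw' ht'
      obtain ⟨y, h1, h2, h3⟩ := packing hA hint hrow w' hw' t'
        (fun B hB => ht' B (mem_filter.2 ⟨mem_univ _, hB⟩))
      exact ⟨y, h1, fun j => by rw [hsumeq]; exact h2 j, h3⟩)
    _ (fun j => (w j : ℝ)) t hw0 (fun j => Pool.Agent.Dyadic85.Rat'.int N (w j))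
    (Pool.Agent.Dyadic85.Rat'.sum _ _ fun j _ => Pool.Agent.Dyadic85.Rat'.int N (w j))
    (fun B hB => hB0min B hB) ⟨B0, hB0, rfl⟩
    (by
      intro i hi B hB h2
      rw [hmeet] at h2 ⊢
      refine hN i ?_ B (mem_filter.1 hB).2 h2
      intro B1 hB1 hB1min
      rw [← hmeet]
      refine hi B1 (mem_filter.2 ⟨mem_univ _, hB1⟩) (le_antisymm ?_ ?_)
      · exact hB1min B0 (mem_filter.1 hB0).2.1
      · exact hB0min B1 (mem_filter.2 ⟨mem_univ _, hB1⟩)) le_rfl
  refine ⟨y, ⟨⟨hy0, fun j => by rw [← hsumeq]; exact hyw j⟩, ?_⟩, hyN⟩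
  intro y' hy' hy'w
  rw [hyt]
  -- weak duality
  calc ∑ i, y' i ≤ ∑ i, ((B0 ∩ S i).card : ℝ) * y' i := by
        refine sum_le_sum fun i _ => ?_
        have : (1 : ℝ) ≤ ((B0 ∩ S i).card : ℝ) := by exact_mod_cast (hSB B0 hB0 i).card_pos
        nlinarith [hy' i]
    _ = ∑ j ∈ B0, ∑ i, (if j ∈ S i then y' i else 0) := by
        rw [sum_comm]
        refine sum_congr rfl fun i _ => ?_
        rw [← sum_filter, sum_const, nsmul_eq_mul, filter_mem_eq_inter]
    _ ≤ t := sum_le_sum fun j _ => by rw [hsumeq]; exact hy'w j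

end Pool.Agent.Results.MP_743355_co.SmallIntersections
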