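import Mathlib
import Pool.Agent.MP9a04dc.Duality
import Pool.Agent.Dyad4.Minor

set_option autoImplicit false
set_option linter.unusedSectionVars false
set_option linter.unusedVariables false

namespace Pool.Agent.Results.MP_743355_co.SmallRows

open Finset Matrix

variable {m n : ℕ}

/-- `x` lies in the set covering polyhedron `P(A) = {x ≥ 0, A x ≥ 1}`. -/
def InP (A : Matrix (Fin m) (Fin n) ℝ) (x : Fin n → ℝ) : Prop :=
  (∀ j, 0 ≤ x j) ∧ ∀ i, 1 ≤ ∑ j, A i j * x j

/-- `x` minimises `w x` over `P(A)`. -/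
def IsPrimalOpt (A : Matrix (Fin m) (Fin n) ℝ) (w : Fin n → ℝ) (x : Fin n → ℝ) : Prop :=
  InP A x ∧ ∀ x', InP A x' → ∑ j, w j * x j ≤ ∑ j, w j * x' j

/-- `P(A)` is integral: whenever a linear function has a minimiser over `P(A)`, it has an
integral one. -/
def IntegralP (A : Matrix (Fin m) (Fin n) ℝ) : Prop :=
  ∀ w x : Fin n → ℝ, IsPrimalOpt A w x → ∃ z : Fin n → ℤ, IsPrimalOpt A w (fun j => (z j : ℝ))

/-- `y` is an optimal solution of the dual program `max 1 y : y A ≤ w, y ≥ 0`. -/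
def IsDualOpt (A : Matrix (Fin m) (Fin n) ℝ) (w : Fin n → ℝ) (y : Fin m → ℝ) : Prop :=
  ((∀ i, 0 ≤ y i) ∧ ∀ j, ∑ i, A i j * y i ≤ w j) ∧
    ∀ y' : Fin m → ℝ, (∀ i, 0 ≤ y' i) → (∀ j, ∑ i, A i j * y' i ≤ w j) → ∑ i, y' i ≤ ∑ i, y i

/-- `B` is a cover: a set of columns that meets every row. -/
def IsCover (A : Matrix (Fin m) (Fin n) ℝ) (B : Finset (Fin n)) : Prop :=
  ∀ i, ∃ j ∈ B, A i j = 1

/-- `B` is a cover that is minimal under inclusion. -/
def IsMinimalCover (A : Matrix (Fin m) (Fin n) ℝ) (B : Finset (Fin n)) : Prop :=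
  IsCover A B ∧ ∀ j ∈ B, ¬ IsCover A (B.erase j)

/-- Column `j` belongs to a cover of minimum `w`-weight. -/
def InMinCover (A : Matrix (Fin m) (Fin n) ℝ) (w : Fin n → ℤ) (j : Fin n) : Prop :=
  ∃ B, IsCover A B ∧ (∀ B', IsCover A B' → ∑ j ∈ B, w j ≤ ∑ j ∈ B', w j) ∧ j ∈ B

lemma exists_minimal (A : Matrix (Fin m) (Fin n) ℝ) :
    ∀ (k : ℕ) (B : Finset (Fin n)), B.card ≤ k → IsCover A B → ∃ B' ⊆ B, IsMinimalCover A B' := by
  intro k
  induction k with
  | zero =>
    intro B hB hc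
    have : B = ∅ := card_eq_zero.1 (by omega)
    subst this
    exact ⟨∅, subset_rfl, hc, by simp⟩
  | succ k ih =>
    intro B hB hc
    by_cases h : ∀ j ∈ B, ¬ IsCover A (B.erase j)
    · exact ⟨B, subset_rfl, hc, h⟩
    · push Not at h
      obtain ⟨j, hj, hj2⟩ := h
      obtain ⟨B', hB', h'⟩ := ih (B.erase j) (by rw [card_erase_of_mem hj]; omega) hj2
      exact ⟨B', hB'.trans (erase_subset _ _), h'⟩

lemma rowsum {A : Matrix (Fin m) (Fin n) ℝ} (hA : ∀ i j, A i j = 0 ∨ A i j = 1) (i : Fin m)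
    (x : Fin n → ℝ) : ∑ j, A i j * x j = ∑ j ∈ {j | A i j = 1}, x j := by
  rw [sum_filter]
  refine sum_congr rfl fun j _ => ?_
  rcases hA i j with h | h <;> simp [h]

/-- attainment -/
lemma exists_opt {A : Matrix (Fin m) (Fin n) ℝ} (hA : ∀ i j, A i j = 0 ∨ A i j = 1)
    (hrow : ∀ i, ∃ j, A i j = 1) (w : Fin n → ℝ) (hw : ∀ j, 0 ≤ w j) :
    ∃ x, IsPrimalOpt A w x := by
  set K : Set (Fin n → ℝ) := Set.Icc 0 1 ∩ ⋂ i, {x | 1 ≤ ∑ j, A i j * x j} with hK
  have hKc : IsCompact K := by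
    refine isCompact_Icc.inter_right (isClosed_iInter fun i => ?_)
    exact isClosed_le continuous_const (by fun_prop)
  have hone : (1 : Fin n → ℝ) ∈ K := by
    refine ⟨⟨fun _ => by simp, le_rfl⟩, Set.mem_iInter.2 fun i => ?_⟩
    obtain ⟨j, hj⟩ := hrow i
    show 1 ≤ ∑ j, A i j * (1 : Fin n → ℝ) j
    rw [rowsum hA]
    have := single_le_sum (f := fun j => (1 : Fin n → ℝ) j) (s := {j | A i j = 1})
      (fun j _ => by simp) (by simpa using hj : j ∈ ({j | A i j = 1} : Finset (Fin n)))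
    simpa using this
  obtain ⟨x, hx, hmin⟩ := hKc.exists_isMinOn (f := fun x : Fin n → ℝ => ∑ j, w j * x j) ⟨1, hone⟩
    (by fun_prop)
  have hxP : InP A x := ⟨fun j => hx.1.1 j, fun i => Set.mem_iInter.1 hx.2 i⟩
  refine ⟨x, hxP, fun x' hx' => ?_⟩
  have h1 : (fun j => min (x' j) 1) ∈ K := by
    refine ⟨⟨fun j => le_min (hx'.1 j) zero_le_one, fun j => min_le_right _ _⟩,
      Set.mem_iInter.2 fun i => ?_⟩
    show 1 ≤ ∑ j, A i j * min (x' j) 1
    rw [rowsum hA]
    by_cases h : ∃ j, A i j = 1 ∧ 1 ≤ x' j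
    · obtain ⟨j, hj, hj1⟩ := h
      have := single_le_sum (f := fun j => min (x' j) 1) (s := {j | A i j = 1})
        (fun j _ => le_min (hx'.1 j) zero_le_one)
        (by simpa using hj : j ∈ ({j | A i j = 1} : Finset (Fin n)))
      simpa [min_eq_right hj1] using this
    · push Not at h
      have h2 := hx'.2 i
      rw [rowsum hA] at h2
      refine h2.trans (le_of_eq (sum_congr rfl fun j hj => ?_))
      rw [min_eq_left (h j (by simpa using hj)).le]
  have h2 : ∑ j, w j * x j ≤ ∑ j, w j * min (x' j) 1 := hmin h1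
  refine h2.trans (sum_le_sum fun j _ => mul_le_mul_of_nonneg_left (min_le_left _ _) (hw j))

/-- the minimum over `P(A)` is at least the minimum weight of a minimal cover -/
lemma le_primal {A : Matrix (Fin m) (Fin n) ℝ} (hA : ∀ i j, A i j = 0 ∨ A i j = 1)
    (hint : IntegralP A) (hrow : ∀ i, ∃ j, A i j = 1) (w : Fin n → ℝ) (hw : ∀ j, 0 ≤ w j) (t : ℝ)
    (ht : ∀ B, IsMinimalCover A B → t ≤ ∑ j ∈ B, w j) (x : Fin n → ℝ) (hx : InP A x) :
    t ≤ ∑ j, w j * x j := by
  obtain ⟨x0, hx0⟩ := exists_opt hA hrow w hw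
  obtain ⟨z, hz⟩ := hint w x0 hx0
  have hz0 : ∀ j, 0 ≤ z j := fun j => by
    have h : (0 : ℝ) ≤ (z j : ℝ) := hz.1.1 j
    exact_mod_cast h
  have hcov : IsCover A {j | 1 ≤ z j} := by
    intro i
    by_contra hcon
    push Not at hcon
    have h1 := hz.1.2 i
    rw [rowsum hA] at h1
    have h2 : ∑ j ∈ {j | A i j = 1}, ((z j : ℤ) : ℝ) = 0 := by
      refine sum_eq_zero fun j hj => ?_
      have h3 : ¬ (1 ≤ z j) := fun h => hcon j (by simpa using h) (by simpa using hj)
      have : z j = 0 := by have := hz0 j; omega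
      simp [this]
    rw [h2] at h1
    linarith
  obtain ⟨B, hB, hBm⟩ := exists_minimal A _ _ le_rfl hcov
  calc t ≤ ∑ j ∈ B, w j := ht B hBm
    _ ≤ ∑ j ∈ {j | 1 ≤ z j}, w j := sum_le_sum_of_subset_of_nonneg hB fun j _ _ => hw j
    _ ≤ ∑ j ∈ {j | 1 ≤ z j}, w j * (z j : ℝ) := by
        refine sum_le_sum fun j hj => ?_
        have : (1 : ℝ) ≤ (z j : ℝ) := by
          have := (mem_filter.1 hj).2
          exact_mod_cast this
        nlinarith [hw j]
    _ ≤ ∑ j, w j * (z j : ℝ) := by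
        refine sum_le_sum_of_subset_of_nonneg (subset_univ _) fun j _ _ => ?_
        exact mul_nonneg (hw j) (by exact_mod_cast hz0 j)
    _ ≤ _ := hz.2 x hx

/-- LP duality for ideal systems -/
lemma packing {A : Matrix (Fin m) (Fin n) ℝ} (hA : ∀ i j, A i j = 0 ∨ A i j = 1)
    (hint : IntegralP A) (hrow : ∀ i, ∃ j, A i j = 1) (w : Fin n → ℝ) (hw : ∀ j, 0 ≤ w j) (t : ℝ)
    (ht : ∀ B, IsMinimalCover A B → t ≤ ∑ j ∈ B, w j) :
    ∃ y : Fin m → ℝ, (∀ i, 0 ≤ y i) ∧ (∀ j, ∑ i, A i j * y i ≤ w j) ∧ t ≤ ∑ i, y i := by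
  set M : ℝ := 1 + ∑ j, w j with hM
  have hM0 : 0 ≤ M := by
    have : 0 ≤ ∑ j, w j := sum_nonneg fun j _ => hw j
    linarith
  have hconv : Convex ℝ (Set.Icc (0 : Fin m → ℝ) (fun _ => M)) := convex_Icc _ _
  obtain ⟨y, hy, hg, hv⟩ := Pool.Agent.MP9a04dc.lp_duality (J := Fin m) (I := Fin n)
    (Set.Icc 0 (fun _ => M)) isCompact_Icc hconv (fun j i => A i j) w (fun _ => 1) t 0
    ⟨le_rfl, fun _ => hM0⟩ (fun j => by simpa using hw j) (by
      intro z hz
      have hval : ∀ y : Fin m → ℝ, (fun _ => (1 : ℝ)) ⬝ᵥ y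
          - ∑ j, z j * ((fun i => A i j) ⬝ᵥ y - w j)
          = ∑ i, y i * (1 - ∑ j, A i j * z j) + ∑ j, w j * z j := by
        intro y
        simp only [dotProduct, one_mul]
        have h1 : ∑ j, z j * (∑ i, A i j * y i - w j)
            = ∑ i, y i * ∑ j, A i j * z j - ∑ j, w j * z j := by
          simp_rw [mul_sub, mul_sum]
          rw [sum_sub_distrib, sum_comm]
          congr 1
          · exact sum_congr rfl fun i _ => sum_congr rfl fun j _ => by ring
          · exact sum_congr rfl fun j _ => by ring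
        rw [h1]
        simp_rw [mul_sub, mul_one]
        rw [sum_sub_distrib]
        ring
      by_cases h : ∀ i, 1 ≤ ∑ j, A i j * z j
      · refine ⟨0, ⟨le_rfl, fun _ => hM0⟩, ?_⟩
        rw [hval]
        have := le_primal hA hint hrow w hw t ht z ⟨hz, h⟩
        simpa using this
      · push Not at h
        obtain ⟨i1, hi1⟩ := h
        obtain ⟨i0, -, hi0⟩ := exists_min_image (univ : Finset (Fin m))
          (fun i => ∑ j, A i j * z j) ⟨i1, mem_univ _⟩
        have hlt : ∑ j, A i0 j * z j < 1 := (hi0 i1 (mem_univ _)).trans_lt hi1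
        set δ : ℝ := 1 - ∑ j, A i0 j * z j with hδ
        have hδ0 : 0 < δ := sub_pos.2 hlt
        have hfeas : InP A (fun j => z j + δ) := by
          refine ⟨fun j => add_nonneg (hz j) hδ0.le, fun i => ?_⟩
          have h1 := hi0 i (mem_univ _)
          have h2 : ∑ j, A i j * (z j + δ) = ∑ j, A i j * z j + (∑ j, A i j * 1) * δ := by
            rw [sum_mul, ← sum_add_distrib]
            exact sum_congr rfl fun j _ => by ring
          have h3 : 1 ≤ ∑ j, A i j * (1 : ℝ) := by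
            obtain ⟨j, hj⟩ := hrow i
            rw [rowsum hA]
            have := single_le_sum (f := fun _ : Fin n => (1 : ℝ)) (s := {j | A i j = 1})
              (fun j _ => zero_le_one) (by simpa using hj : j ∈ ({j | A i j = 1} : Finset (Fin n)))
            simpa using this
          rw [h2]
          nlinarith
        have h4 := le_primal hA hint hrow w hw t ht _ hfeas
        have h5 : ∑ j, w j * (z j + δ) = ∑ j, w j * z j + (∑ j, w j) * δ := by
          rw [sum_mul, ← sum_add_distrib]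
          exact sum_congr rfl fun j _ => by ring
        rw [h5] at h4
        refine ⟨fun i => if ∑ j, A i j * z j < 1 then M else 0, ⟨fun i => ?_, fun i => ?_⟩, ?_⟩
        · show (0 : ℝ) ≤ if ∑ j, A i j * z j < 1 then M else 0
          split_ifs <;> simp [hM0]
        · show (if ∑ j, A i j * z j < 1 then M else 0) ≤ M
          split_ifs <;> simp [hM0]
        · rw [hval]
          have h6 : M * δ ≤ ∑ i, (if ∑ j, A i j * z j < 1 then M else 0) * (1 - ∑ j, A i j * z j) := by
            have := single_le_sum (f := fun i => (if ∑ j, A i j * z j < 1 then M else 0)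
              * (1 - ∑ j, A i j * z j)) (s := univ) (fun i _ => by
                show 0 ≤ (if ∑ j, A i j * z j < 1 then M else 0) * (1 - ∑ j, A i j * z j)
                split_ifs with h
                · exact mul_nonneg hM0 (by linarith)
                · simp) (mem_univ i0)
            simpa [hlt, hδ] using this
          nlinarith)
  refine ⟨y, fun i => hy.1 i, fun j => ?_, ?_⟩
  · have := hg j
    simpa [dotProduct] using this
  · simpa [dotProduct] using hv

open Classical in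
/-- **Theorem.** Let `A` be a 0,1 matrix with `P(A)` integral, `w` integral with a finite minimum,
and `p` an odd prime. Suppose that every row of `A` whose elements all have nonzero weight contains
at most `p + 1` elements that belong to covers of minimum weight. Then the dual has an optimal
solution all of whose entries are fractions whose denominators have only prime factors smaller than
`p`. -/
theorem result (m n p : ℕ) (hp : p.Prime) (hp2 : p ≠ 2) (A : Matrix (Fin m) (Fin n) ℝ)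
    (hA : ∀ i j, A i j = 0 ∨ A i j = 1) (hint : IntegralP A) (w : Fin n → ℤ)
    (hw : ∃ x, IsPrimalOpt A (fun j => (w j : ℝ)) x)
    (hsmall : ∀ i, (∀ j, A i j = 1 → w j ≠ 0) →
      (univ.filter fun j => A i j = 1 ∧ InMinCover A w j).card ≤ p + 1) :
    ∃ y, IsDualOpt A (fun j => (w j : ℝ)) y ∧
      ∀ i, ∃ (k : ℤ) (d : ℕ), 0 < d ∧ (∀ q : ℕ, q.Prime → q ∣ d → q < p) ∧
        y i = (k : ℝ) / (d : ℝ) := by
  obtain ⟨x0, hx0⟩ := hw
  -- rows are nonzero
  have hrow : ∀ i, ∃ j, A i j = 1 := by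
    intro i
    by_contra hcon
    push Not at hcon
    have h1 := hx0.1.2 i
    rw [rowsum hA, sum_eq_zero] at h1
    · linarith
    · intro j hj
      exact absurd (by simpa using hj) (hcon j)
  -- weights are nonnegative
  have hw0 : ∀ j, (0 : ℝ) ≤ (w j : ℝ) := by
    intro j
    by_contra hcon
    push Not at hcon
    have hfeas : InP A (fun k => x0 k + if k = j then 1 else 0) := by
      refine ⟨fun k => ?_, fun i => ?_⟩
      · have := hx0.1.1 k
        show 0 ≤ x0 k + if k = j then 1 else 0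
        split_ifs <;> linarith
      · refine (hx0.1.2 i).trans (sum_le_sum fun k _ => ?_)
        refine mul_le_mul_of_nonneg_left ?_ (by rcases hA i k with h | h <;> simp [h])
        show x0 k ≤ x0 k + if k = j then 1 else 0
        split_ifs <;> linarith
    have h1 := hx0.2 _ hfeas
    have h2 : ∑ k, (w k : ℝ) * (x0 k + if k = j then 1 else 0) = ∑ k, (w k : ℝ) * x0 k + (w j : ℝ) := by
      simp_rw [mul_add]
      rw [sum_add_distrib]
      simp
    rw [h2] at h1
    linarith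
  have hw0' : ∀ j, 0 ≤ w j := fun j => by exact_mod_cast hw0 j
  set S : Fin m → Finset (Fin n) := fun i => univ.filter fun j => A i j = 1 with hS
  have hSr : ∀ i, (S i).Nonempty := fun i => by
    obtain ⟨j, hj⟩ := hrow i
    exact ⟨j, by simpa [hS] using hj⟩
  have hev : ∀ (x : Fin n → ℝ) i, Dyad4.ev x (S i) = ∑ j, A i j * x j := fun x i => by
    rw [rowsum hA]
    rfl
  have hcov : ∀ B, Dyad4.Cov S B ↔ IsCover A B := fun B => by
    constructor
    · intro h i
      obtain ⟨j, hj⟩ := h i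
      obtain ⟨h1, h2⟩ := mem_inter.1 hj
      exact ⟨j, h1, by simpa [hS] using h2⟩
    · intro h i
      obtain ⟨j, h1, h2⟩ := h i
      exact ⟨j, mem_inter.2 ⟨h1, by simpa [hS] using h2⟩⟩
  have hcovuniv : IsCover A univ := fun i => by
    obtain ⟨j, hj⟩ := hrow i
    exact ⟨j, mem_univ j, hj⟩
  -- the polyhedron is integral
  have hI : Dyad4.IdealS S := by
    intro u hu x hx
    have hBne : (univ.filter fun B : Finset (Fin n) => IsMinimalCover A B).Nonempty := by
      obtain ⟨B, -, hB⟩ := exists_minimal A _ _ le_rfl hcovuniv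
      exact ⟨B, mem_filter.2 ⟨mem_univ _, hB⟩⟩
    obtain ⟨B0, hB0, hB0min⟩ := exists_min_image _ (fun B : Finset (Fin n) => ∑ j ∈ B, u j) hBne
    refine ⟨B0, (hcov B0).2 (mem_filter.1 hB0).2.1, ?_⟩
    exact le_primal hA hint hrow u hu _ (fun B hB => hB0min B (mem_filter.2 ⟨mem_univ _, hB⟩)) x
      ⟨hx.1, fun i => by rw [← hev]; exact hx.2 i⟩
  have hsumeq : ∀ (y : Fin m → ℝ) (j : Fin n),
      ∑ i, (if j ∈ S i then y i else 0) = ∑ i, A i j * y i := by
    intro y j
    refine sum_congr rfl fun i _ => ?_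
    rcases hA i j with h | h <;> simp [hS, h]
  have hpack : ∀ (w' : Fin n → ℝ) (t : ℝ), (∀ a, 0 ≤ w' a) →
      (∀ B, Dyad4.Cov S B → t ≤ Dyad4.ev w' B) →
      ∃ y : Fin m → ℝ, (∀ i, 0 ≤ y i) ∧ (∀ a, ∑ i, (if a ∈ S i then y i else 0) ≤ w' a) ∧
        t ≤ ∑ i, y i := by
    intro w' t h1 h2
    obtain ⟨y, h3, h4, h5⟩ := packing hA hint hrow w' h1 t
      (fun B hB => h2 B ((hcov B).2 hB.1))
    exact ⟨y, h3, fun a => by rw [hsumeq]; exact h4 a, h5⟩
  -- the numbers with small prime factors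
  set N : Submonoid ℕ :=
    { carrier := {d | ∀ q : ℕ, q.Prime → q ∣ d → q < p}
      one_mem' := fun q hq h => absurd (Nat.dvd_one.1 h) hq.one_lt.ne'
      mul_mem' := fun {a b} ha hb q hq h => by
        rcases (Nat.Prime.dvd_mul hq).1 h with h | h
        · exact ha q hq h
        · exact hb q hq h } with hN
  have hNmem : ∀ d, d ∈ N ↔ ∀ q : ℕ, q.Prime → q ∣ d → q < p := fun d => Iff.rfl
  have hN1 : ∀ k, 0 < k → k < p → k ∈ N := fun k hk hkp =>
    (hNmem k).2 fun q hq h => (Nat.le_of_dvd hk h).trans_lt hkp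
  have hN2 : ∀ k ∈ N, ¬ p ∣ k := fun k hk h => lt_irrefl p ((hNmem k).1 hk p hp h)
  have h2N : 2 ∈ N := hN1 2 two_pos (lt_of_le_of_ne hp.two_le (Ne.symm hp2))
  have hgood := Dyad4.good_small (w := w) (N := N) hSr hI hp hp2 (fun i hi => by
    refine (card_le_card ?_).trans (hsmall i fun j hj => hi j (by simpa [hS] using hj))
    intro j hj
    obtain ⟨h1, h2⟩ := Finset.mem_sdiff.1 hj
    have h3 : w j ≠ 0 := hi j h1
    rw [Dyad4.mem_ZZ_iff hSr] at h2
    push Not at h2
    obtain ⟨B, hB, hjB⟩ := h2 h3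
    refine mem_filter.2 ⟨mem_univ _, by simpa [hS] using h1, B, (hcov B).1 hB.1, fun B' hB' => ?_,
      hjB⟩
    exact hB.2 B' ((hcov B').2 hB')) hN1 hN2
  obtain ⟨ys, ε, hε, hs1, hs2, hs3, hs4⟩ := Dyad4.exists_strict hSr hw0' hpack
  obtain ⟨y, hy0, hyT, hyeq, hyle, hyN⟩ := Dyad4.round hgood h2N w ys hε hs1 hs2 hs3 hs4
  refine ⟨y, ⟨⟨hy0, fun j => by rw [← hsumeq]; exact hyle j⟩, ?_⟩, fun i => ?_⟩
  · intro y' hy' hy'w
    have hpat := Dyad4.pat_avg (w := w) hSr
    have e1 := Dyad4.dual_sum (S := S) y y (Dyad4.avg S w)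
    have e2 := Dyad4.dual_sum (S := S) y' y' (Dyad4.avg S w)
    have e3 : ∑ i, y i * Dyad4.ev (Dyad4.avg S w) (S i) = ∑ i, y i := by
      refine sum_congr rfl fun i _ => ?_
      by_cases hi : i ∈ Dyad4.TT S w
      · rw [hpat.tight i hi, mul_one]
      · rw [hyT i hi, zero_mul]
    have e4 : ∑ i, y' i ≤ ∑ i, y' i * Dyad4.ev (Dyad4.avg S w) (S i) :=
      sum_le_sum fun i _ => by
        have := Dyad4.one_le_ev_avg (w := w) hSr i
        nlinarith [hy' i]
    have e5 : ∑ a, Dyad4.avg S w a * ∑ i, (if a ∈ S i then y' i else 0)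
        ≤ ∑ a, Dyad4.avg S w a * ∑ i, (if a ∈ S i then y i else 0) := by
      refine sum_le_sum fun a _ => ?_
      by_cases ha : a ∈ Dyad4.ZZ S w
      · rw [hpat.zero a ha]
        simp
      · rw [hyeq a ha, hsumeq]
        exact mul_le_mul_of_nonneg_left (hy'w a) (hpat.pos a ha).le
    linarith
  · obtain ⟨k, d, hd, hd0, h⟩ := hyN i
    exact ⟨k, d, hd0, (hNmem d).1 hd, h⟩

end Pool.Agent.Results.MP_743355_co.SmallRows
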